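import Pool.Agent.N82.QH.FXYb

/-!
# Project QH (helper728), part FXY: the number of `x + y = n` with `x y + c` prime
-/

set_option autoImplicit false

namespace Pool.Agent.N82.QH

open Finset Pool.Agent.N728.QL

noncomputable section

theorem cover {d N : ℝ} {n : ℝ} (hn : n ≤ N) (I : ℕ) :
    n ≤ N / (1 + d) ^ I ∨ ∃ i < I, N / (1 + d) ^ i / (1 + d) < n ∧ n ≤ N / (1 + d) ^ i := by
  induction I with
  | zero => left; simpa using hn
  | succ I ih =>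
    rcases ih with h | ⟨i, hi, h⟩
    · by_cases h1 : n ≤ N / (1 + d) ^ (I + 1)
      · exact Or.inl h1
      · refine Or.inr ⟨I, Nat.lt_succ_self I, ?_, h⟩
        rw [div_div, ← pow_succ]
        exact not_le.1 h1
    · exact Or.inr ⟨i, by omega, h⟩

theorem geom {d : ℝ} (hd : 0 < d) (I : ℕ) :
    ∑ i ∈ range I, 1 / (1 + d) ^ i ≤ (1 + d) / d := by
  have h1 := mul_neg_geom_sum (1 / (1 + d)) I
  have h2 : 1 - 1 / (1 + d) = d / (1 + d) := by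
    field_simp
    ring
  rw [h2] at h1
  have h3 : 0 ≤ (1 / (1 + d)) ^ I := by positivity
  have h4 : ∑ i ∈ range I, 1 / (1 + d) ^ i = ∑ i ∈ range I, (1 / (1 + d)) ^ i :=
    Finset.sum_congr rfl fun i _ => by rw [div_pow, one_pow]
  rw [h4, le_div_iff₀ hd]
  have h5 : d * ∑ i ∈ range I, (1 / (1 + d)) ^ i ≤ 1 + d := by
    have h6 : d * ∑ i ∈ range I, (1 / (1 + d)) ^ i =
        (1 + d) * (d / (1 + d) * ∑ i ∈ range I, (1 / (1 + d)) ^ i) := by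
      field_simp
    rw [h6, h1]
    nlinarith
  linarith

theorem adm {c : ℤ} (hc : c ≠ 0) {n : ℕ} (h : Even n ∨ Odd c) (hn : 4 * |c| + 4 ≤ (n : ℤ)) :
    Admissible (-1) n c := by
  refine ⟨?_, ?_, ?_⟩
  · simp
  · rintro ⟨h1, h2⟩
    rcases h with h | h
    · have h3 : Even (n : ℤ) := by exact_mod_cast h
      obtain ⟨a, ha⟩ := h1
      obtain ⟨b, hb⟩ := h3
      omega
    · obtain ⟨a, ha⟩ := h
      obtain ⟨b, hb⟩ := h2
      omega
  · rintro ⟨m, hm⟩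
    have h1 : (n : ℤ) ^ 2 + 4 * c = |m| * |m| := by
      rw [abs_mul_abs_self]
      linarith
    have h2 := abs_nonneg m
    have h3 := neg_abs_le c
    have h4 := le_abs_self c
    rcases lt_trichotomy |m| (n : ℤ) with h5 | h5 | h5
    · nlinarith
    · rw [h5] at h1
      apply hc
      nlinarith
    · nlinarith

theorem t_FXY (c : ℤ) (hc : c ≠ 0) (h1 : Pool.Agent.N728.QG.S_MCP2 (-Polynomial.X) c)
    (h2 : Pool.Agent.N728.QL.S_LOC) (h3 : Pool.Agent.N728.QN.S_CSTN (-1) c) (h4 : S_MER)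
    (hU0 : ∀ c : ℤ, c ≠ 0 → Pool.Agent.N728.QG.S_U0 c) : Pool.Agent.N728.QG.FinalXY c := by
  classical
  intro ε hε
  obtain ⟨K0, κ, hK0, hκ, hCST⟩ := h3 (ε / 4) (by positivity)
  refine ⟨κ, hκ, fun δ hδ => ?_⟩
  obtain ⟨C5, hC5, B5, hup⟩ := upper c h4 (hU0 c hc)
  obtain ⟨ε', hε'⟩ : ∃ ε', ε' = ε / 8 := ⟨_, rfl⟩
  have hε'0 : 0 < ε' := by rw [hε']; positivity
  obtain ⟨e, he⟩ : ∃ e, e = min (δ / 4) 1 := ⟨_, rfl⟩
  have he0 : 0 < e := by rw [he]; exact lt_min (by positivity) one_pos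
  have he1 : e ≤ 1 := by rw [he]; exact min_le_right _ _
  have heδ : e ≤ δ / 4 := by rw [he]; exact min_le_left _ _
  obtain ⟨J, hJ1, hJK⟩ : ∃ J : ℕ, 1 ≤ J ∧ 16 * K0 ≤ e * J := by
    obtain ⟨n, hn⟩ := exists_nat_ge (16 * K0 / e)
    refine ⟨n + 1, by omega, ?_⟩
    rw [div_le_iff₀ he0] at hn
    push_cast
    nlinarith
  obtain ⟨d, hd⟩ : ∃ d, d = min (1 / 2) (min (δ / (24 * K0)) (ε' * δ / (432 * C5))) := ⟨_, rfl⟩
  have hd0 : 0 < d := by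
    rw [hd]
    exact lt_min (by norm_num) (lt_min (by positivity) (by positivity))
  have hd2 : d ≤ 1 / 2 := by rw [hd]; exact min_le_left _ _
  have hdK : 24 * K0 * d ≤ δ := by
    have : d ≤ δ / (24 * K0) := by
      rw [hd]; exact (min_le_right _ _).trans (min_le_left _ _)
    rw [le_div_iff₀ (by positivity)] at this
    linarith
  have hdC : 432 * C5 * d ≤ ε' * δ := by
    have : d ≤ ε' * δ / (432 * C5) := by
      rw [hd]; exact (min_le_right _ _).trans (min_le_right _ _)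
    rw [le_div_iff₀ (by positivity)] at this
    linarith
  obtain ⟨δ1, hδ1⟩ : ∃ δ1, δ1 = e / 100 := ⟨_, rfl⟩
  have hδ10 : 0 < δ1 := by rw [hδ1]; positivity
  obtain ⟨z1, hz1⟩ := h1 20 (δ1 * (ε' * d / 3)) d (by norm_num) (by positivity) hd0
  obtain ⟨z2, hz2⟩ := hCST δ1 hδ10
  obtain ⟨z, hz⟩ : ∃ z, z = max z1 z2 := ⟨_, rfl⟩
  obtain ⟨Bz, hBz⟩ := hz1 z (by rw [hz]; exact le_max_left _ _) 1
  obtain ⟨B2, hB2⟩ := hz2 z (by rw [hz]; exact le_max_right _ _)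
  obtain ⟨Cz, hCz, hloc⟩ := h2 (-1) c z
  have blk := block hC5 hup hδ hK0 hε'0 hd0 hd2 hdK hdC he0 he1 heδ hJ1 hJK hδ1 hBz hloc
  obtain ⟨R0, hR0⟩ := Filter.eventually_atTop.1 blk
  obtain ⟨I, hI⟩ : ∃ I : ℕ, 4 / ε ≤ (1 + d) ^ I :=
    pow_unbounded_of_one_lt (4 / ε) (by linarith : (1 : ℝ) < 1 + d) |>.imp fun n hn => hn.le
  have hP : 0 < (1 + d) ^ I := by positivity
  obtain ⟨N0, hN0⟩ := exists_nat_ge (max (R0 * (1 + d) ^ I) ((4 * |(c : ℝ)| + 4) * (1 + d) ^ I))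
  refine ⟨max (max N0 B2) 1, fun N hN => ?_⟩
  have g1 : N0 ≤ N := (le_max_left _ _).trans ((le_max_left _ _).trans hN)
  have g2 : B2 ≤ N := (le_max_right _ _).trans ((le_max_left _ _).trans hN)
  have g3 : 1 ≤ N := (le_max_right _ _).trans hN
  have g1' : (N0 : ℝ) ≤ N := by exact_mod_cast g1
  have hN1 : (1 : ℝ) ≤ N := by exact_mod_cast g3
  have hNp : (0 : ℝ) < N := by linarith
  have k1 : R0 ≤ N / (1 + d) ^ I := by
    rw [le_div_iff₀ hP]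
    exact (le_max_left _ _).trans (hN0.trans g1')
  have k2 : 4 * |(c : ℝ)| + 4 ≤ N / (1 + d) ^ I := by
    rw [le_div_iff₀ hP]
    exact (le_max_right _ _).trans (hN0.trans g1')
  -- the blocks
  obtain ⟨Bk, hBk⟩ : ∃ Bk : ℕ → Finset ℕ, Bk = fun i =>
      (Icc 1 ⌊(N : ℝ) / (1 + d) ^ i⌋₊).filter (fun n : ℕ => (N : ℝ) / (1 + d) ^ i / (1 + d) < n ∧
      ∃ K : ℝ, 0 ≤ K ∧ K ≤ K0 ∧ |2 * K - Sg (-1) n c z| ≤ δ1 ∧
        ¬ |(Pool.Agent.N728.QG.rxy c n : ℝ) - K * (n / Real.log n)| ≤ δ * (n / Real.log n)) :=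
    ⟨_, rfl⟩
  have hBkc : ∀ i < I, ((Bk i).card : ℝ) ≤ ε' * d * (N * (1 / (1 + d) ^ i)) := by
    intro i hi
    have e1 : R0 ≤ (N : ℝ) / (1 + d) ^ i := by
      refine k1.trans ?_
      apply div_le_div_of_nonneg_left hNp.le (by positivity)
      exact pow_le_pow_right₀ (by linarith) hi.le
    have e2 := hR0 _ e1
    rw [hBk]
    refine e2.trans (le_of_eq ?_)
    ring
  have hsub : (Icc 1 N).filter (fun n : ℕ => (Even n ∨ Odd c) ∧
      ¬ ∃ S : ℝ, IsC (-1) n c S ∧ κ ≤ S ∧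
        |(Pool.Agent.N728.QG.rxy c n : ℝ) - S * (n / Real.log n)| ≤ δ * (n / Real.log n)) ⊆
      (Icc 1 ⌊(N : ℝ) / (1 + d) ^ I⌋₊ ∪ (Icc 1 N).filter (fun b : ℕ => Admissible (-1) b c ∧
        ¬ ∃ K : ℝ, IsC (-1) b c K ∧ κ ≤ K ∧ K ≤ K0 ∧ |2 * K - Sg (-1) b c z| ≤ δ1)) ∪
      (range I).biUnion Bk := by
    intro n hn
    rw [mem_filter, mem_Icc] at hn
    obtain ⟨⟨hn1, hnN⟩, hpar, hno⟩ := hn
    by_contra hcon
    rw [mem_union, mem_union, not_or, not_or] at hcon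
    obtain ⟨⟨n1, n2⟩, n3⟩ := hcon
    have hnN' : (n : ℝ) ≤ N := by exact_mod_cast hnN
    rcases cover (d := d) hnN' I with h | ⟨i, hi, hi1, hi2⟩
    · exact n1 (mem_Icc.2 ⟨hn1, Nat.le_floor h⟩)
    · have hbig : 4 * |(c : ℝ)| + 4 ≤ n := by
        by_contra hh
        push Not at hh
        exact n1 (mem_Icc.2 ⟨hn1, Nat.le_floor (hh.le.trans k2)⟩)
      have hadm : Admissible (-1) n c := adm hc hpar (by exact_mod_cast hbig)
      have n2' : ∃ K : ℝ, IsC (-1) n c K ∧ κ ≤ K ∧ K ≤ K0 ∧ |2 * K - Sg (-1) n c z| ≤ δ1 := by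
        by_contra hh
        exact n2 (mem_filter.2 ⟨mem_Icc.2 ⟨hn1, hnN⟩, hadm, hh⟩)
      obtain ⟨K, hK, hKκ, hKK, hKS⟩ := n2'
      apply n3
      rw [mem_biUnion]
      refine ⟨i, mem_range.2 hi, ?_⟩
      rw [hBk]
      refine mem_filter.2 ⟨mem_Icc.2 ⟨hn1, Nat.le_floor hi2⟩, hi1, K, hκ.le.trans hKκ, hKK, hKS,
        fun hh => hno ⟨K, hK, hKκ, hh⟩⟩
  have hcard := Finset.card_le_card hsub
  have d1 : (((range I).biUnion Bk).card : ℝ) ≤ ∑ i ∈ range I, ((Bk i).card : ℝ) := by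
    have := Finset.card_biUnion_le (s := range I) (t := Bk)
    exact_mod_cast this
  have d2 : ∑ i ∈ range I, ((Bk i).card : ℝ) ≤ ε / 4 * N := by
    calc ∑ i ∈ range I, ((Bk i).card : ℝ) ≤ ∑ i ∈ range I, ε' * d * (N * (1 / (1 + d) ^ i)) :=
          Finset.sum_le_sum fun i hi => hBkc i (mem_range.1 hi)
      _ = ε' * d * N * ∑ i ∈ range I, 1 / (1 + d) ^ i := by
          rw [Finset.mul_sum]
          exact Finset.sum_congr rfl fun i _ => by ring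
      _ ≤ ε' * d * N * ((1 + d) / d) := mul_le_mul_of_nonneg_left (geom hd0 I) (by positivity)
      _ = ε' * (1 + d) * N := by field_simp
      _ ≤ ε / 4 * N := by
          apply mul_le_mul_of_nonneg_right _ hNp.le
          rw [hε']
          nlinarith
  have d3 : (((Icc 1 ⌊(N : ℝ) / (1 + d) ^ I⌋₊).card : ℕ) : ℝ) ≤ ε / 4 * N := by
    rw [Nat.card_Icc, Nat.add_sub_cancel]
    refine (Nat.floor_le (by positivity)).trans ?_
    rw [div_le_iff₀ hP]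
    rw [div_le_iff₀ hε] at hI
    nlinarith
  have d4 := hB2 N g2
  have d5 := Finset.card_union_le (Icc 1 ⌊(N : ℝ) / (1 + d) ^ I⌋₊ ∪ (Icc 1 N).filter (fun b : ℕ =>
    Admissible (-1) b c ∧ ¬ ∃ K : ℝ, IsC (-1) b c K ∧ κ ≤ K ∧ K ≤ K0 ∧
      |2 * K - Sg (-1) b c z| ≤ δ1)) ((range I).biUnion Bk)
  have d6 := Finset.card_union_le (Icc 1 ⌊(N : ℝ) / (1 + d) ^ I⌋₊) ((Icc 1 N).filter (fun b : ℕ =>
    Admissible (-1) b c ∧ ¬ ∃ K : ℝ, IsC (-1) b c K ∧ κ ≤ K ∧ K ≤ K0 ∧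
      |2 * K - Sg (-1) b c z| ≤ δ1))
  have tot := hcard.trans (d5.trans (Nat.add_le_add_right d6 _))
  have tot' : (((Icc 1 N).filter (fun n : ℕ => (Even n ∨ Odd c) ∧
      ¬ ∃ S : ℝ, IsC (-1) n c S ∧ κ ≤ S ∧
        |(Pool.Agent.N728.QG.rxy c n : ℝ) - S * (n / Real.log n)| ≤
          δ * (n / Real.log n))).card : ℝ) ≤
      ((Icc 1 ⌊(N : ℝ) / (1 + d) ^ I⌋₊).card : ℝ) + (((Icc 1 N).filter (fun b : ℕ =>
        Admissible (-1) b c ∧ ¬ ∃ K : ℝ, IsC (-1) b c K ∧ κ ≤ K ∧ K ≤ K0 ∧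
          |2 * K - Sg (-1) b c z| ≤ δ1)).card : ℝ) + (((range I).biUnion Bk).card : ℝ) := by
    exact_mod_cast tot
  have d7 : 0 ≤ ε * N := by positivity
  refine tot'.trans ?_
  linarith

end

end Pool.Agent.N82.QH
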