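import Pool.Agent.N728.QG.Def2
import Pool.Agent.N199.QL.FIN

/-!
# Project QH (helper728), part FXY: first part (one integer `n`, decomposition, upper bound sieve)
-/

set_option autoImplicit false

namespace Pool.Agent.N82.QH

open Finset Pool.Agent.N728.QL
open Pool.Agent.N199.QL (fin_ineq markov ev_log ev_ge)

noncomputable section

/-- the value of the polynomial -/
def fn (c : ℤ) (n t : ℕ) : ℤ := (t : ℤ) * ((n : ℤ) - t) + c

open Classical in
/-- the indicator function -/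
def pr (c : ℤ) (n t : ℕ) : ℝ := if (fn c n t).toNat.Prime then 1 else 0

theorem pr_nonneg (c : ℤ) (n t : ℕ) : 0 ≤ pr c n t := by
  unfold pr
  split_ifs <;> norm_num

theorem lp_fn (c : ℤ) (n t : ℕ) : lp (fn c n t) = pr c n t * Real.log (fn c n t : ℝ) := by
  unfold Pool.Agent.N728.QL.lp pr
  split_ifs <;> simp

theorem fn_real (c : ℤ) (n t : ℕ) : ((fn c n t : ℤ) : ℝ) = (t : ℝ) * ((n : ℝ) - t) + c := by
  unfold fn
  push_cast
  ring

/-- one integer `n` -/
theorem one_n {c : ℤ} {n T J T1 : ℕ} (hJ : 1 ≤ J) (hTJ : T1 = T / J) (hT : 1 ≤ T)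
    (h2T : 2 * T ≤ n) (h6T : n ≤ 6 * T) (hc1 : 2 * |(c : ℝ)| + 4 ≤ n)
    (hc2 : 24 * (J : ℝ) * |(c : ℝ)| ≤ (n : ℝ) ^ 2) {K K0 e E : ℝ}
    (hcJ : Real.log (24 * J) ≤ Real.log n) (hK : 0 ≤ K) (hK0 : K ≤ K0) (hE : 0 ≤ E)
    (h1 : |∑ t ∈ Icc 1 T1, lp (fn c n t) - 2 * K * T1| ≤ E)
    (h2 : |∑ t ∈ Icc 1 T, lp (fn c n t) - 2 * K * T| ≤ E)
    (he : E ≤ e * T / 24) (he1 : e ≤ 1) (he0 : 0 < e) (hJK : 16 * K0 ≤ e * J)
    (hgl : 4 * (2 * K0 + 1) * Real.log (24 * J) ≤ e * Real.log n) :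
    |∑ t ∈ Icc 1 T, pr c n t - K * (T / Real.log n)| ≤ e * (T / Real.log n) := by
  have hJ' : (1 : ℝ) ≤ J := by exact_mod_cast hJ
  have hn4 : (4 : ℝ) ≤ n := by linarith [abs_nonneg (c : ℝ)]
  have hn0 : (0 : ℝ) < n := by linarith
  have hT' : (1 : ℝ) ≤ T := by exact_mod_cast hT
  have h2T' : 2 * (T : ℝ) ≤ n := by exact_mod_cast h2T
  have h6T' : (n : ℝ) ≤ 6 * T := by exact_mod_cast h6T
  set L := Real.log n with hL
  have hL1 : 1 < L := by
    rw [hL, Real.lt_log_iff_exp_lt hn0]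
    linarith [Real.exp_one_lt_d9]
  have hL0 : 0 < L := by linarith
  set cJ := Real.log (24 * J) with hcJd
  have hcJ0 : 0 ≤ cJ := Real.log_nonneg (by linarith)
  have hcabs := neg_abs_le (c : ℝ)
  have hcabs' := le_abs_self (c : ℝ)
  -- lower bound for all `t`
  have hval : ∀ t : ℕ, 1 ≤ t → t ≤ T → (n : ℝ) / 2 ≤ (fn c n t : ℝ) ∧
      (fn c n t : ℝ) ≤ (n : ℝ) ^ 2 := by
    intro t ht htT
    have ht1 : (1 : ℝ) ≤ t := by exact_mod_cast ht
    have ht2 : (t : ℝ) ≤ T := by exact_mod_cast htT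
    rw [fn_real]
    constructor
    · nlinarith
    · nlinarith [sq_nonneg ((n : ℝ) - 2 * t)]
  have hpos : ∀ t : ℕ, 1 ≤ t → t ≤ T → (0 : ℝ) < (fn c n t : ℝ) := by
    intro t ht htT
    have := (hval t ht htT).1
    linarith
  have hlow : ∀ t : ℕ, 1 ≤ t → t ≤ T → L / 2 ≤ Real.log (fn c n t : ℝ) := by
    intro t ht htT
    have e1 : L / 2 ≤ Real.log ((n : ℝ) / 2) := by
      have e2 : L ≤ 2 * Real.log ((n : ℝ) / 2) := by
        have : 2 * Real.log ((n : ℝ) / 2) = Real.log (((n : ℝ) / 2) ^ 2) := by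
          rw [Real.log_pow]; norm_num
        rw [this, hL]
        apply Real.log_le_log hn0
        nlinarith
      linarith
    exact e1.trans (Real.log_le_log (by linarith) (hval t ht htT).1)
  have hup : ∀ t : ℕ, 1 ≤ t → t ≤ T → Real.log (fn c n t : ℝ) ≤ 2 * L := by
    intro t ht htT
    have : 2 * L = Real.log ((n : ℝ) ^ 2) := by
      rw [Real.log_pow]; norm_num [hL]
    rw [this]
    exact Real.log_le_log (hpos t ht htT) (hval t ht htT).2
  have hmid : ∀ t : ℕ, T1 < t → t ≤ T → 2 * L - cJ ≤ Real.log (fn c n t : ℝ) := by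
    intro t ht htT
    have ht1 : 1 ≤ t := by omega
    rw [hTJ] at ht
    have h3 : T ≤ t * J := ((Nat.div_lt_iff_lt_mul (by omega)).1 ht).le
    have h3' : (T : ℝ) ≤ t * J := by exact_mod_cast h3
    have ht2 : (t : ℝ) ≤ T := by exact_mod_cast htT
    have ht1' : (1 : ℝ) ≤ t := by exact_mod_cast ht1
    have h4 : (n : ℝ) ^ 2 / (24 * J) ≤ (fn c n t : ℝ) := by
      rw [fn_real, div_le_iff₀ (by positivity)]
      have e1 : (n : ℝ) / 2 ≤ n - t := by linarith
      have e2 : (n : ℝ) ≤ 6 * (t * J) := by linarith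
      have e3 : (t : ℝ) * (n - t) * (24 * J) ≥ 2 * (n : ℝ) ^ 2 := by
        have e4 : (t : ℝ) * J * (n / 2) ≤ (t : ℝ) * J * (n - t) := by
          apply mul_le_mul_of_nonneg_left e1
          positivity
        nlinarith
      nlinarith
    have h5 : Real.log ((n : ℝ) ^ 2 / (24 * J)) = 2 * L - cJ := by
      rw [Real.log_div (by positivity) (by positivity), Real.log_pow, ← hL, ← hcJd]
      norm_num
    rw [← h5]
    exact Real.log_le_log (by positivity) h4
  have hLc0 : 0 < 2 * L - cJ := by linarith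
  have hT1T : T1 ≤ T := by
    rw [hTJ]
    exact Nat.div_le_self T J
  have hT1T' : (T1 : ℝ) ≤ T := by exact_mod_cast hT1T
  have hsplit : ∀ f : ℕ → ℝ, ∑ t ∈ Icc 1 T, f t = ∑ t ∈ Icc 1 T1, f t +
      ∑ t ∈ Ioc T1 T, f t := by
    intro f
    rw [← Finset.sum_union]
    · congr 1
      ext t
      simp only [mem_union, mem_Icc, mem_Ioc]
      omega
    · rw [Finset.disjoint_left]
      intro t h3 h4
      rw [mem_Icc] at h3
      rw [mem_Ioc] at h4
      omega
  rw [hsplit (pr c n)]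
  rw [hsplit fun t => lp (fn c n t)] at h2
  have key := fin_ineq (lam := L) (d := 1 / (2 * L)) (D := 1 / (2 * L - cJ)) (g := cJ / L ^ 2)
    (K := K) (K0 := K0) (E := E) (T := T) (T1 := (T1 : ℕ)) (J := J) (e := e)
    (S1 := ∑ t ∈ Icc 1 T1, lp (fn c n t))
    (S2 := ∑ t ∈ Ioc T1 T, lp (fn c n t))
    (P1 := ∑ t ∈ Icc 1 T1, pr c n t) (P2 := ∑ t ∈ Ioc T1 T, pr c n t)
    (R1 := T1 * (1 / (2 * L))) (R2 := ((T : ℝ) - T1) * (1 / (2 * L)))
    hL0 (by positivity) ?_ ?_ (by positivity) hK hK0 (by positivity) (by positivity)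
    hT1T' (by linarith) (by rw [hTJ]; exact Nat.cast_div_le) hE ?_ ?_ ?_ (by positivity) ?_ ?_ ?_
    le_rfl ?_ h1 h2 he he1 he0 hJK ?_
  · have e1 : 2 * K * ((T1 : ℝ) * (1 / (2 * L)) + ((T : ℝ) - T1) * (1 / (2 * L))) =
        K * (T / L) := by
      field_simp
      ring
    rw [e1] at key
    have e2 : e * (T : ℝ) / L = e * (T / L) := by ring
    rw [e2] at key
    exact key
  · rw [div_le_div_iff₀ (by positivity) hL0]
    linarith
  · rw [div_add_div _ _ (by positivity) (by positivity), div_le_div_iff₀ hLc0 (by positivity)]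
    have e1 : L ≤ 2 * L - cJ := by linarith
    have e2 : L ^ 2 * cJ ≤ 2 * cJ * (L * (2 * L - cJ)) := by
      have e3 : L ^ 2 ≤ L * (2 * L - cJ) := by nlinarith
      have e4 : L ^ 2 * cJ ≤ L * (2 * L - cJ) * cJ := mul_le_mul_of_nonneg_right e3 hcJ0
      have e5 : 0 ≤ L * (2 * L - cJ) * cJ := by positivity
      nlinarith
    nlinarith
  · refine Finset.sum_nonneg fun t ht => ?_
    rw [mem_Ioc] at ht
    rw [lp_fn]
    have e1 := hlow t (by omega) ht.2
    exact mul_nonneg (pr_nonneg _ _ _) (by linarith)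
  · exact Finset.sum_nonneg fun t _ => pr_nonneg _ _ _
  · rw [Finset.sum_mul]
    refine Finset.sum_le_sum fun t ht => ?_
    rw [mem_Icc] at ht
    rw [lp_fn, mul_assoc]
    have e1 := hlow t ht.1 (by omega)
    have e2 : 1 ≤ Real.log (fn c n t : ℝ) * (2 / L) := by
      rw [mul_div_assoc', le_div_iff₀ hL0]
      linarith
    exact le_mul_of_one_le_right (pr_nonneg _ _ _) e2
  · apply mul_le_mul_of_nonneg_left _ (Nat.cast_nonneg _)
    rw [div_le_div_iff₀ (by positivity) hL0]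
    linarith
  · rw [Finset.sum_mul]
    refine Finset.sum_le_sum fun t ht => ?_
    rw [mem_Ioc] at ht
    rw [lp_fn, mul_assoc]
    have e1 := hup t (by omega) ht.2
    have e2 : Real.log (fn c n t : ℝ) * (1 / (2 * L)) ≤ 1 := by
      rw [mul_one_div, div_le_one (by positivity)]
      exact e1
    exact mul_le_of_le_one_right (pr_nonneg _ _ _) e2
  · rw [Finset.sum_mul]
    refine Finset.sum_le_sum fun t ht => ?_
    rw [mem_Ioc] at ht
    rw [lp_fn, mul_assoc]
    have e1 := hmid t ht.1 ht.2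
    have e2 : 1 ≤ Real.log (fn c n t : ℝ) * (1 / (2 * L - cJ)) := by
      rw [mul_one_div, le_div_iff₀ hLc0, one_mul]
      exact e1
    exact le_mul_of_one_le_right (pr_nonneg _ _ _) e2
  · apply mul_le_mul_of_nonneg_left _ (by linarith)
    rw [div_le_div_iff₀ (by positivity) hLc0]
    linarith
  · have e1 : cJ / L ^ 2 * L = cJ / L := by field_simp
    rw [e1, mul_div_assoc', div_le_iff₀ hL0]
    exact hgl

/-! ### The decomposition -/

theorem pr_reflect {c : ℤ} {n t : ℕ} (ht : t ≤ n) : pr c n (n - t) = pr c n t := by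
  have h : fn c n (n - t) = fn c n t := by
    unfold fn
    rw [Nat.cast_sub ht]
    ring
  unfold pr
  rw [h]

theorem rxy_eq {c : ℤ} {n T : ℕ} (h : 2 * T < n) : (Pool.Agent.N728.QG.rxy c n : ℝ) =
    2 * ∑ t ∈ Icc 1 T, pr c n t + ∑ t ∈ Ico (T + 1) (n - T), pr c n t := by
  classical
  have h0 : (Pool.Agent.N728.QG.rxy c n : ℝ) = ∑ t ∈ Ico 1 n, pr c n t := by
    unfold Pool.Agent.N728.QG.rxy
    rw [Finset.card_filter]
    push_cast
    refine Finset.sum_congr rfl fun t _ => ?_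
    unfold pr fn
    congr
  have h1 := Finset.sum_Ico_consecutive (pr c n) (show 1 ≤ T + 1 by omega)
    (show T + 1 ≤ n - T by omega)
  have h2 := Finset.sum_Ico_consecutive (pr c n) (show 1 ≤ n - T by omega)
    (show n - T ≤ n by omega)
  have h3 := Finset.sum_Ico_reflect (pr c n) 1 (show T + 1 ≤ n + 1 by omega)
  have h4 : ∑ j ∈ Ico 1 (T + 1), pr c n (n - j) = ∑ j ∈ Ico 1 (T + 1), pr c n j := by
    refine Finset.sum_congr rfl fun j hj => ?_
    rw [mem_Ico] at hj
    exact pr_reflect (by omega)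
  rw [h4, show n + 1 - (T + 1) = n - T by omega, show n + 1 - 1 = n by omega] at h3
  have h5 : Icc 1 T = Ico 1 (T + 1) := by
    ext t
    simp only [mem_Icc, mem_Ico]
    omega
  rw [h0, ← h2, ← h1, h5, ← h3]
  ring

/-! ### Pairs -/

open Classical in
/-- the indicator function of the pairs -/
def qq (c : ℤ) (u v : ℕ) : ℝ := if ((u : ℤ) * v + c).toNat.Prime then 1 else 0

theorem qq_nonneg (c : ℤ) (u v : ℕ) : 0 ≤ qq c u v := by
  unfold qq
  split_ifs <;> norm_num

theorem pr_eq_qq {c : ℤ} {n t : ℕ} (h : t ≤ n) : pr c n t = qq c t (n - t) := by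
  unfold pr qq fn
  rw [Nat.cast_sub h]

theorem pairs {c : ℤ} {T Y : ℕ} (S : Finset ℕ) (hS : ∀ n ∈ S, n ≤ Y + T) :
    ∑ n ∈ S, ∑ t ∈ Ico (T + 1) (n - T), pr c n t ≤ ∑ u ∈ Ioc T Y, ∑ v ∈ Ioc T Y, qq c u v := by
  classical
  have h1 : ∀ n ∈ S, ∑ t ∈ Ico (T + 1) (n - T), pr c n t ≤
      ∑ u ∈ Ioc T Y, ∑ v ∈ Ioc T Y, if v + u = n then qq c u v else 0 := by
    intro n hn
    have hnY := hS n hn
    calc ∑ t ∈ Ico (T + 1) (n - T), pr c n t
        ≤ ∑ t ∈ Ico (T + 1) (n - T), ∑ v ∈ Ioc T Y, (if v + t = n then qq c t v else 0) := by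
          refine Finset.sum_le_sum fun t ht => ?_
          rw [mem_Ico] at ht
          rw [pr_eq_qq (by omega)]
          have hmem : n - t ∈ Ioc T Y := by
            rw [mem_Ioc]
            omega
          have e1 := Finset.single_le_sum (f := fun v => if v + t = n then qq c t v else 0)
            (fun v _ => by
              show (0 : ℝ) ≤ if v + t = n then qq c t v else 0
              split_ifs
              · exact qq_nonneg _ _ _
              · exact le_rfl) hmem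
          rw [if_pos (by omega)] at e1
          exact e1
      _ ≤ ∑ u ∈ Ioc T Y, ∑ v ∈ Ioc T Y, if v + u = n then qq c u v else 0 := by
          refine Finset.sum_le_sum_of_subset_of_nonneg ?_ ?_
          · intro t ht
            rw [mem_Ico] at ht
            rw [mem_Ioc]
            omega
          · intro u _ _
            refine Finset.sum_nonneg fun v _ => ?_
            split_ifs
            · exact qq_nonneg _ _ _
            · exact le_rfl
  refine (Finset.sum_le_sum h1).trans ?_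
  rw [Finset.sum_comm]
  refine Finset.sum_le_sum fun u _ => ?_
  rw [Finset.sum_comm]
  refine Finset.sum_le_sum fun v _ => ?_
  rw [Finset.sum_ite_eq]
  split_ifs
  · exact le_rfl
  · exact qq_nonneg _ _ _

/-! ### The upper bound sieve -/

theorem qq_le_lz {c : ℤ} {u v z : ℕ} (h : (z : ℤ) < (u : ℤ) * v + c) :
    qq c u v ≤ VW 0 z * lz z (((u * v : ℕ) : ℤ) + c) := by
  unfold qq
  split_ifs with hp
  · have hRg : Rg 0 z (((u * v : ℕ) : ℤ) + c) := by
      intro p hpp _ hpz hdvd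
      have h0 : (((u * v : ℕ) : ℤ) + c) = ((((u : ℤ) * v + c).toNat : ℕ) : ℤ) := by
        rw [Int.toNat_of_nonneg (by omega)]
        push_cast
        ring
      rw [h0] at hdvd
      have h1 : p ∣ ((u : ℤ) * v + c).toNat := by exact_mod_cast hdvd
      have h2 := (Nat.prime_dvd_prime_iff_eq hpp hp).1 h1
      have h3 : z < ((u : ℤ) * v + c).toNat := by omega
      omega
    unfold lz
    rw [if_pos hRg, mul_inv_cancel₀ (VW_pos 0 z).ne']
  · exact mul_nonneg (VW_pos 0 z).le (lz_nonneg _ _)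

theorem upper (c : ℤ) (h4 : S_MER) (hU : Pool.Agent.N728.QG.S_U0 c) : ∃ C : ℝ, 0 < C ∧
    ∃ B0 : ℕ, ∀ B : ℕ, B0 ≤ B → ∀ T Y : ℕ, T ≤ Y → B ≤ (Y - T) ^ 2 → Y ≤ B ^ 2 → 2 * B ≤ T ^ 2 →
    ∑ u ∈ Ioc T Y, ∑ v ∈ Ioc T Y, qq c u v ≤ C * (((Y : ℝ) - T) ^ 2 / Real.log B) := by
  obtain ⟨C4, hC4, -, hmer⟩ := h4
  obtain ⟨C, hC, k, B0, hU⟩ := hU 2 (by norm_num)
  refine ⟨C * C4 * (2 * (k + 1)), by positivity, max (max B0 (3 ^ (k + 1))) (c.natAbs + 2), ?_⟩
  intro B hB T Y hTY hB1 hB2 hB3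
  have g1 : B0 ≤ B := (le_max_left _ _).trans ((le_max_left _ _).trans hB)
  have g2 : 3 ^ (k + 1) ≤ B := (le_max_right _ _).trans ((le_max_left _ _).trans hB)
  have g3 : c.natAbs + 2 ≤ B := (le_max_right _ _).trans hB
  have hBR : (2 : ℝ) ≤ B := by
    have : 2 ≤ B := by omega
    exact_mod_cast this
  have hB0 : (0 : ℝ) < B := by linarith
  have hlogB : 0 < Real.log B := Real.log_pos (by linarith)
  set x : ℝ := (B : ℝ) ^ (1 / ((k : ℝ) + 1)) with hx
  have hk0 : (0 : ℝ) < (k : ℝ) + 1 := by positivity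
  have hx3 : 3 ≤ x := by
    have e1 : (3 : ℝ) = ((3 : ℝ) ^ (k + 1)) ^ (1 / ((k : ℝ) + 1)) := by
      rw [← Real.rpow_natCast, ← Real.rpow_mul (by norm_num)]
      push_cast
      rw [mul_one_div, div_self hk0.ne', Real.rpow_one]
    rw [e1, hx]
    apply Real.rpow_le_rpow (by positivity) _ (by positivity)
    exact_mod_cast g2
  have hx0 : 0 < x := by linarith
  set z : ℕ := ⌊x⌋₊ with hz
  have hzx : (z : ℝ) ≤ x := Nat.floor_le hx0.le
  have hzx' : x < z + 1 := Nat.lt_floor_add_one x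
  have hz3 : 3 ≤ z := Nat.le_floor (by exact_mod_cast hx3)
  have hxk : x ^ (k + 1) = B := by
    rw [hx, ← Real.rpow_natCast, ← Real.rpow_mul hB0.le]
    push_cast
    rw [one_div_mul_cancel hk0.ne', Real.rpow_one]
  have hzk : z ^ (k + 1) ≤ B := by
    have : (z : ℝ) ^ (k + 1) ≤ B := by
      rw [← hxk]
      exact pow_le_pow_left₀ (Nat.cast_nonneg _) hzx _
    exact_mod_cast this
  have hzk' : z ^ k ≤ B := (Nat.pow_le_pow_right (by omega) (Nat.le_succ k)).trans hzk
  have hzB : z ≤ B := (Nat.le_self_pow (Nat.succ_ne_zero k) z).trans hzk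
  -- the logarithm of `z`
  have hlogz : Real.log B / (2 * (k + 1)) ≤ Real.log z := by
    have e1 : Real.log x = Real.log B / (k + 1) := by
      rw [hx, Real.log_rpow hB0]
      ring
    have e2 : Real.log x ≤ 2 * Real.log z := by
      have e3 : 2 * Real.log z = Real.log ((z : ℝ) ^ 2) := by
        rw [Real.log_pow]; norm_num
      rw [e3]
      apply Real.log_le_log hx0
      have : (3 : ℝ) ≤ z := by exact_mod_cast hz3
      nlinarith
    have e4 : Real.log B / (2 * (k + 1)) = Real.log x / 2 := by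
      rw [e1]
      field_simp
    rw [e4]
    linarith
  have hVW : VW 0 z ≤ C4 * (2 * (k + 1)) / Real.log B := by
    have e1 := (hmer z (by omega)).1
    have e2 := VW_pos 0 z
    have e3 : Real.log z * VW 0 z ≤ C4 := by
      calc Real.log z * VW 0 z ≤ C4 * (VW 0 z)⁻¹ * VW 0 z :=
            mul_le_mul_of_nonneg_right e1 e2.le
        _ = C4 := by field_simp
    rw [le_div_iff₀ hlogB]
    have e5 : Real.log B ≤ 2 * (k + 1) * Real.log z := by
      rw [div_le_iff₀ (by positivity)] at hlogz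
      linarith
    calc VW 0 z * Real.log B ≤ VW 0 z * (2 * (k + 1) * Real.log z) :=
          mul_le_mul_of_nonneg_left e5 e2.le
      _ = (2 * (k + 1)) * (Real.log z * VW 0 z) := by ring
      _ ≤ (2 * (k + 1)) * C4 := mul_le_mul_of_nonneg_left e3 (by positivity)
      _ = C4 * (2 * (k + 1)) := by ring
  have hbox := hU B g1 z (by omega) hzk' 1 1 T Y T Y le_rfl le_rfl
    (by rw [one_pow]; omega) (by rw [one_pow]; omega) hTY hB1 hB2 hTY hB1 hB2
  have hfil : ∀ S : Finset ℕ, S.filter (fun u => 1 ∣ u) = S := fun S =>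
    Finset.filter_true_of_mem fun u _ => one_dvd u
  simp only [hfil, Nat.totient_one, Nat.cast_one, mul_one, div_one] at hbox
  calc ∑ u ∈ Ioc T Y, ∑ v ∈ Ioc T Y, qq c u v
      ≤ ∑ u ∈ Ioc T Y, ∑ v ∈ Ioc T Y, VW 0 z * lz z (((u * v : ℕ) : ℤ) + c) := by
        refine Finset.sum_le_sum fun u hu => Finset.sum_le_sum fun v hv => ?_
        rw [mem_Ioc] at hu hv
        apply qq_le_lz
        have e1 : T * T ≤ u * v := Nat.mul_le_mul hu.1.le hv.1.le
        have e2 : ((T * T : ℕ) : ℤ) ≤ ((u * v : ℕ) : ℤ) := by exact_mod_cast e1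
        have e3 : (2 * (B : ℤ)) ≤ ((T * T : ℕ) : ℤ) := by
          rw [sq] at hB3
          exact_mod_cast hB3
        have e4 : (z : ℤ) ≤ B := by exact_mod_cast hzB
        have e5 : -((c.natAbs : ℕ) : ℤ) ≤ c := by omega
        have e6 : ((c.natAbs : ℕ) : ℤ) + 2 ≤ B := by exact_mod_cast g3
        push_cast at e2
        linarith
    _ = VW 0 z * ∑ u ∈ Ioc T Y, ∑ v ∈ Ioc T Y, lz z (((u * v : ℕ) : ℤ) + c) := by
        rw [Finset.mul_sum]
        refine Finset.sum_congr rfl fun u _ => ?_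
        rw [Finset.mul_sum]
    _ ≤ (C4 * (2 * (k + 1)) / Real.log B) * (C * (((Y : ℝ) - T) * ((Y : ℝ) - T))) := by
        refine mul_le_mul hVW hbox ?_ (by positivity)
        exact Finset.sum_nonneg fun u _ => Finset.sum_nonneg fun v _ => lz_nonneg _ _
    _ = C * C4 * (2 * (k + 1)) * (((Y : ℝ) - T) ^ 2 / Real.log B) := by ring

end

end Pool.Agent.N82.QH
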