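import Pool.Agent.N82.QH.FXYa

/-!
# Project QH (helper728), part FXY: second part (one block of integers)
-/

set_option autoImplicit false

namespace Pool.Agent.N82.QH

open Finset Pool.Agent.N728.QL
open Pool.Agent.N199.QL (fin_ineq markov ev_log ev_ge)

noncomputable section

theorem EE_eq (c : ℤ) (z n t : ℕ) :
    EE z ((t : ℤ) * ((-Polynomial.X : Polynomial ℤ).eval (t : ℤ) + n) + c) = EE z (fn c n t) := by
  congr 1
  unfold fn
  rw [Polynomial.eval_neg, Polynomial.eval_X]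
  ring

theorem lz_eq (c : ℤ) (z n t : ℕ) :
    lz z (-1 * (t : ℤ) ^ 2 + (n : ℤ) * t + c) = lz z (fn c n t) := by
  congr 1
  unfold fn
  ring

/-- the middle part -/
def mid (c : ℤ) (T n : ℕ) : ℝ := ∑ t ∈ Ico (T + 1) (n - T), pr c n t

theorem mid_nonneg (c : ℤ) (T n : ℕ) : 0 ≤ mid c T n := Finset.sum_nonneg fun _ _ => pr_nonneg _ _ _

/-- the numerical relations for a block -/
structure Num (d R : ℝ) (J B T T1 Y : ℕ) : Prop where
  Bd : B = ⌊R / (1 + d) ^ 2⌋₊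
  Td : T = B / 2
  T1d : T1 = T / J
  Yd : Y = ⌊R⌋₊ - T
  d0 : 0 < d
  d2 : d ≤ 1 / 2
  R0 : 100 ≤ R
  RJ : 16 * (J : ℝ) ≤ R
  dR : 4 ≤ d * R
  ddR : 4 ≤ d ^ 2 * R
  J1 : 1 ≤ J

namespace Num

variable {d R : ℝ} {J B T T1 Y : ℕ} (h : Num d R J B T T1 Y)
include h

theorem g2 : (1 + d) ^ 2 ≤ 9 / 4 := by
  have h1 := h.d0
  have h2 := h.d2
  nlinarith

theorem g0 : 0 < (1 + d) ^ 2 := by
  have h1 := h.d0
  positivity

theorem Bup : (B : ℝ) ≤ R / (1 + d) ^ 2 := by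
  rw [h.Bd]
  exact Nat.floor_le (div_nonneg (by linarith [h.R0]) h.g0.le)

theorem Bup' : (B : ℝ) * (1 + d) ^ 2 ≤ R := (le_div_iff₀ h.g0).1 h.Bup

theorem BR : (B : ℝ) ≤ R := by
  refine h.Bup.trans (div_le_self (by linarith [h.R0]) ?_)
  have h1 := h.d0
  nlinarith

theorem Blo : R / (1 + d) ^ 2 < B + 1 := by
  rw [h.Bd]
  exact Nat.lt_floor_add_one _

theorem Blo' : R < (B + 1) * (1 + d) ^ 2 := (div_lt_iff₀ h.g0).1 h.Blo

theorem R94 : R ≤ 9 / 4 * (B + 1) := by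
  have h1 := h.Blo'
  have h2 := h.g2
  have h3 : (0 : ℝ) ≤ (B : ℝ) + 1 := by positivity
  nlinarith

theorem RB : R ≤ 3 * B := by
  have h1 := h.R94
  have h2 := h.R0
  linarith

theorem B30 : (30 : ℝ) ≤ B := by
  have h1 := h.RB
  have h2 := h.R0
  linarith

theorem B30' : 30 ≤ B := by exact_mod_cast h.B30

theorem T2 : 2 * T ≤ B := by
  have := h.Td
  omega

theorem T2' : 2 * (T : ℝ) ≤ B := by exact_mod_cast h.T2

theorem T3 : B ≤ 2 * T + 1 := by
  have := h.Td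
  omega

theorem T3' : (B : ℝ) ≤ 2 * T + 1 := by exact_mod_cast h.T3

theorem T14 : 14 ≤ T := by
  have h1 := h.T3
  have h2 := h.B30'
  omega

theorem RT : R ≤ 6 * T := by
  have h1 := h.R94
  have h2 := h.T3'
  have h3 : (14 : ℝ) ≤ T := by exact_mod_cast h.T14
  linarith

theorem TJ : (T : ℝ) ≤ 2 * J * T1 := by
  have e1 := Nat.div_add_mod T J
  have hJ := h.J1
  have e2 := Nat.mod_lt T (by omega : J > 0)
  rw [← h.T1d] at e1
  have e3 : (T : ℝ) < J * T1 + J := by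
    have : T < J * T1 + J := by omega
    exact_mod_cast this
  have e4 := h.RT
  have e5 := h.RJ
  linarith

theorem T1T : T1 ≤ T := by
  rw [h.T1d]
  exact Nat.div_le_self _ _

theorem Tfl : T ≤ ⌊R⌋₊ := by
  apply Nat.le_floor
  have h1 := h.T2'
  have h2 := h.BR
  have h3 : (0 : ℝ) ≤ T := Nat.cast_nonneg _
  linarith

theorem Yr : (Y : ℝ) = (⌊R⌋₊ : ℝ) - T := by
  rw [h.Yd, Nat.cast_sub h.Tfl]

theorem flR : (⌊R⌋₊ : ℝ) ≤ R := Nat.floor_le (by linarith [h.R0])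

theorem flR' : R < (⌊R⌋₊ : ℝ) + 1 := Nat.lt_floor_add_one R

theorem YTup : (Y : ℝ) - T ≤ 3 * d * R := by
  have h1 := h.Yr
  have h2 := h.flR
  have h3 := h.T3'
  have h4 := h.Blo
  have h5 : R - R / (1 + d) ^ 2 ≤ 2 * d * R := by
    rw [sub_le_iff_le_add, ← sub_le_iff_le_add', le_div_iff₀ h.g0]
    have h6 := h.d0
    have h7 := h.R0
    have h8 : (1 - 2 * d) * (1 + d) ^ 2 ≤ 1 := by nlinarith [mul_pos h6 h6, mul_pos (mul_pos h6 h6) h6]
    nlinarith
  have h9 := h.dR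
  linarith

theorem YTlo : d * R / 2 ≤ (Y : ℝ) - T := by
  have h1 := h.Yr
  have h2 := h.flR'
  have h3 := h.T2'
  have h4 := h.Bup
  have h5 : 3 / 4 * (d * R) ≤ R - R / (1 + d) ^ 2 := by
    rw [le_sub_iff_add_le, ← le_sub_iff_add_le', div_le_iff₀ h.g0]
    have h6 := h.d0
    have h7 := h.R0
    have h10 := h.d2
    have h8 : 1 ≤ (1 - 3 / 4 * d) * (1 + d) ^ 2 := by nlinarith [mul_pos h6 h6]
    nlinarith
  have h9 := h.dR
  linarith

theorem TY : T ≤ Y := by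
  have h1 := h.YTlo
  have h2 := h.dR
  have h3 : (T : ℝ) ≤ Y := by linarith
  exact_mod_cast h3

theorem sqB : B ≤ (Y - T) ^ 2 := by
  have h1 := h.YTlo
  have h2 := h.BR
  have h3 : (B : ℝ) ≤ ((Y : ℝ) - T) ^ 2 := by
    have h4 : 0 ≤ d * R / 2 := by linarith [h.dR]
    have h5 : (d * R / 2) ^ 2 ≤ ((Y : ℝ) - T) ^ 2 := pow_le_pow_left₀ h4 h1 2
    have h6 := h.ddR
    have h7 := h.R0
    nlinarith
  have h8 : ((Y : ℝ) - T) = ((Y - T : ℕ) : ℝ) := by rw [Nat.cast_sub h.TY]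
  rw [h8] at h3
  exact_mod_cast h3

theorem YB : Y ≤ B ^ 2 := by
  have h1 := h.Yr
  have h2 := h.flR
  have h3 := h.RB
  have h4 := h.B30
  have h5 : (0 : ℝ) ≤ T := Nat.cast_nonneg _
  have h6 : (Y : ℝ) ≤ (B : ℝ) ^ 2 := by nlinarith
  exact_mod_cast h6

theorem TB : 2 * B ≤ T ^ 2 := by
  have h1 := h.T3
  have h2 := h.T14
  nlinarith

theorem logB : Real.log R / 2 ≤ Real.log B := by
  have h1 := h.RB
  have h2 := h.R0
  have e : 2 * Real.log (B : ℝ) = Real.log ((B : ℝ) ^ 2) := by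
    rw [Real.log_pow]; norm_num
  have h3 : Real.log R ≤ Real.log ((B : ℝ) ^ 2) := by
    apply Real.log_le_log (by linarith)
    nlinarith [h.B30]
  linarith

end Num

open Classical in
theorem block {c : ℤ} {C5 : ℝ} {B5 : ℕ} (hC5 : 0 < C5)
    (hup : ∀ B : ℕ, B5 ≤ B → ∀ T Y : ℕ, T ≤ Y → B ≤ (Y - T) ^ 2 → Y ≤ B ^ 2 → 2 * B ≤ T ^ 2 →
      ∑ u ∈ Ioc T Y, ∑ v ∈ Ioc T Y, qq c u v ≤ C5 * (((Y : ℝ) - T) ^ 2 / Real.log B))
    {δ K0 ε' d e δ1 : ℝ} {J : ℕ} (hδ : 0 < δ) (hK0 : 0 < K0) (hε' : 0 < ε') (hd : 0 < d)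
    (hd2 : d ≤ 1 / 2) (hdK : 24 * K0 * d ≤ δ) (hdC : 432 * C5 * d ≤ ε' * δ) (he0 : 0 < e)
    (he1 : e ≤ 1) (heδ : e ≤ δ / 4) (hJ : 1 ≤ J) (hJK : 16 * K0 ≤ e * J) (hδ1 : δ1 = e / 100)
    {z Bz : ℕ}
    (hMC : ∀ B : ℕ, Bz ≤ B → ∀ T : ℕ,
      (B : ℝ) ≤ (T : ℝ) ^ (-Polynomial.X : Polynomial ℤ).natDegree * Real.log B ^ 1 →
      T ^ (-Polynomial.X : Polynomial ℤ).natDegree ≤ 20 * B →
      Pool.Agent.N728.QG.Rge (-Polynomial.X) 20 B T →
      ∑ b ∈ (Ioc B (4 * B)).filter (fun b : ℕ => (1 + d) * (B : ℝ) ≤ (b : ℝ)),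
        |∑ t ∈ Icc 1 T, EE z ((t : ℤ) * ((-Polynomial.X : Polynomial ℤ).eval (t : ℤ) + b) + c)| ≤
          (δ1 * (ε' * d / 3)) * ((B : ℝ) * T))
    {Cz : ℝ} (hloc : ∀ (b : ℤ) (T1 T2 : ℕ), T1 ≤ T2 →
      |∑ t ∈ Ioc T1 T2, lz z (-1 * (t : ℤ) ^ 2 + b * t + c) - ((T2 : ℝ) - T1) * Sg (-1) b c z| ≤ Cz) :
    ∀ᶠ R : ℝ in Filter.atTop, (((Icc 1 ⌊R⌋₊).filter (fun n : ℕ => R / (1 + d) < n ∧
      ∃ K : ℝ, 0 ≤ K ∧ K ≤ K0 ∧ |2 * K - Sg (-1) n c z| ≤ δ1 ∧
        ¬ |(Pool.Agent.N728.QG.rxy c n : ℝ) - K * (n / Real.log n)| ≤ δ * (n / Real.log n))).card : ℝ) ≤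
      ε' * d * R := by
  have hδ10 : 0 < δ1 := by rw [hδ1]; positivity
  have hJ' : (1 : ℝ) ≤ J := by exact_mod_cast hJ
  have lge : ∀ M : ℝ, ∀ᶠ R : ℝ in Filter.atTop, M ≤ Real.log R := fun M =>
    Real.tendsto_log_atTop.eventually_ge_atTop M
  have rge : ∀ M : ℝ, ∀ᶠ R : ℝ in Filter.atTop, M ≤ R := fun M => Filter.eventually_ge_atTop M
  filter_upwards [rge 100, rge (16 * J), rge (4 / d), rge (4 / d ^ 2), rge (3 * Bz), rge (3 * B5),
    rge (8 * (Cz / δ1)), rge (4 * |(c : ℝ)| + 8), rge (48 * J * |(c : ℝ)|), lge (12 * J),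
    lge (2 * Real.log (24 * J)), lge (2 * (4 * (2 * K0 + 1) * Real.log (24 * J) / e))]
    with R r1 r2 r3 r4 r5 r6 r7 r8 r9 r10 r11 r12
  obtain ⟨B, hB⟩ : ∃ B, B = ⌊R / (1 + d) ^ 2⌋₊ := ⟨_, rfl⟩
  obtain ⟨T, hT⟩ : ∃ T, T = B / 2 := ⟨_, rfl⟩
  obtain ⟨T1, hT1⟩ : ∃ T1, T1 = T / J := ⟨_, rfl⟩
  obtain ⟨Y, hY⟩ : ∃ Y, Y = ⌊R⌋₊ - T := ⟨_, rfl⟩
  have h : Num d R J B T T1 Y := ⟨hB, hT, hT1, hY, hd, hd2, r1, r2, by
    rw [div_le_iff₀ hd] at r3; linarith, by
    rw [div_le_iff₀ (by positivity)] at r4; linarith, hJ⟩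
  have hR0 : (0 : ℝ) < R := by linarith
  have hlR0 : 0 < Real.log R := Real.log_pos (by linarith)
  have hTR : (0 : ℝ) < T := by
    have : 0 < T := by have := h.T14; omega
    exact_mod_cast this
  have hTR8 : R / 8 ≤ T := by linarith [h.RT]
  -- the block
  obtain ⟨S, hS⟩ : ∃ S, S = (Icc 1 ⌊R⌋₊).filter (fun n : ℕ => R / (1 + d) < n) := ⟨_, rfl⟩
  have hSn : ∀ n ∈ S, 1 ≤ n ∧ n ≤ ⌊R⌋₊ ∧ R / (1 + d) < n ∧ (n : ℝ) ≤ R ∧ R ≤ (1 + d) * n := by
    intro n hn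
    rw [hS, mem_filter, mem_Icc] at hn
    obtain ⟨⟨a1, a2⟩, a3⟩ := hn
    refine ⟨a1, a2, a3, (Nat.le_floor_iff hR0.le).1 a2, ?_⟩
    rw [div_lt_iff₀ (by linarith)] at a3
    linarith
  have hSB : S ⊆ (Ioc B (4 * B)).filter (fun b : ℕ => (1 + d) * (B : ℝ) ≤ (b : ℝ)) := by
    intro n hn
    obtain ⟨a1, a2, a3, a4, a5⟩ := hSn n hn
    have b1 : (1 + d) * (B : ℝ) ≤ R / (1 + d) := by
      rw [le_div_iff₀ (by linarith)]
      have := h.Bup'
      nlinarith
    have b2 : (B : ℝ) < n := by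
      have : (B : ℝ) ≤ (1 + d) * B := by
        have : (0 : ℝ) ≤ B := Nat.cast_nonneg _
        nlinarith
      linarith
    have b3 : (n : ℝ) ≤ 4 * B := by
      have := h.RB
      have : (0 : ℝ) ≤ B := Nat.cast_nonneg _
      linarith
    rw [mem_filter, mem_Ioc]
    exact ⟨⟨by exact_mod_cast b2, by exact_mod_cast b3⟩, by linarith⟩
  -- the first exceptional sets
  have hMT : ∀ τ : ℕ, (T : ℝ) ≤ 2 * J * τ → τ ≤ T →
      ((S.filter fun n : ℕ => δ1 * T < |∑ t ∈ Icc 1 τ, EE z (fn c n t)|).card : ℝ) ≤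
        ε' * d * R / 3 := by
    intro τ hτ1 hτ2
    have hτT : (τ : ℝ) ≤ T := by exact_mod_cast hτ2
    have hBz : Bz ≤ B := by
      have : (Bz : ℝ) ≤ B := by linarith [h.RB]
      exact_mod_cast this
    have k1 : (B : ℝ) ≤ (τ : ℝ) ^ (-Polynomial.X : Polynomial ℤ).natDegree * Real.log B ^ 1 := by
      rw [Polynomial.natDegree_neg, Polynomial.natDegree_X, pow_one, pow_one]
      have e1 := h.logB
      have e2 : 6 * (J : ℝ) ≤ Real.log B := by linarith
      have e3 := h.T3'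
      have e4 : (14 : ℝ) ≤ T := by exact_mod_cast h.T14
      have e5 : (B : ℝ) ≤ 6 * J * τ := by linarith
      have e6 : (0 : ℝ) ≤ τ := Nat.cast_nonneg _
      nlinarith
    have k2 : τ ^ (-Polynomial.X : Polynomial ℤ).natDegree ≤ 20 * B := by
      rw [Polynomial.natDegree_neg, Polynomial.natDegree_X, pow_one]
      have := h.T2
      omega
    have k3 : Pool.Agent.N728.QG.Rge (-Polynomial.X) 20 B τ := by
      intro u hu1 hu2
      rw [Polynomial.eval_neg, Polynomial.eval_X]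
      have := h.T2
      push_cast
      omega
    have key := hMC B hBz τ k1 k2 k3
    simp only [EE_eq] at key
    refine markov _ (fun n : ℕ => |∑ t ∈ Icc 1 τ, EE z (fn c n t)|) (fun b => abs_nonneg _)
      (by positivity) ?_
    refine (Finset.sum_le_sum_of_subset_of_nonneg hSB fun _ _ _ => abs_nonneg _).trans
      (key.trans ?_)
    have e3 : (B : ℝ) * τ ≤ R * T := mul_le_mul h.BR hτT (Nat.cast_nonneg _) hR0.le
    calc δ1 * (ε' * d / 3) * (B * τ) ≤ δ1 * (ε' * d / 3) * (R * T) :=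
          mul_le_mul_of_nonneg_left e3 (by positivity)
      _ = ε' * d * R / 3 * (δ1 * T) := by ring
  -- the last exceptional set
  have hMU : ((S.filter fun n : ℕ => δ / 8 * (R / Real.log R) < mid c T n).card : ℝ) ≤
      ε' * d * R / 3 := by
    refine markov _ (fun n : ℕ => mid c T n) (fun n => mid_nonneg _ _ _) (by positivity) ?_
    have hB5 : B5 ≤ B := by
      have : (B5 : ℝ) ≤ B := by linarith [h.RB]
      exact_mod_cast this
    have e1 : ∑ n ∈ S, mid c T n ≤ ∑ u ∈ Ioc T Y, ∑ v ∈ Ioc T Y, qq c u v := by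
      refine pairs S fun n hn => ?_
      have := (hSn n hn).2.1
      have := h.Tfl
      have := h.Yd
      omega
    have e2 := hup B hB5 T Y h.TY h.sqB h.YB h.TB
    refine e1.trans (e2.trans ?_)
    have e3 : ((Y : ℝ) - T) ^ 2 ≤ (3 * d * R) ^ 2 := by
      refine pow_le_pow_left₀ ?_ h.YTup 2
      have := h.YTlo
      have : 0 ≤ d * R / 2 := by positivity
      linarith
    have e4 : ((Y : ℝ) - T) ^ 2 / Real.log B ≤ (3 * d * R) ^ 2 / (Real.log R / 2) :=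
      div_le_div₀ (by positivity) e3 (by positivity) h.logB
    calc C5 * (((Y : ℝ) - T) ^ 2 / Real.log B) ≤ C5 * ((3 * d * R) ^ 2 / (Real.log R / 2)) :=
          mul_le_mul_of_nonneg_left e4 hC5.le
      _ = (432 * C5 * d) * (d * R ^ 2 / (24 * Real.log R)) := by
          field_simp
          ring
      _ ≤ (ε' * δ) * (d * R ^ 2 / (24 * Real.log R)) :=
          mul_le_mul_of_nonneg_right hdC (by positivity)
      _ = ε' * d * R / 3 * (δ / 8 * (R / Real.log R)) := by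
          field_simp
          ring
  -- the inclusion
  have hsub : (Icc 1 ⌊R⌋₊).filter (fun n : ℕ => R / (1 + d) < n ∧
      ∃ K : ℝ, 0 ≤ K ∧ K ≤ K0 ∧ |2 * K - Sg (-1) n c z| ≤ δ1 ∧
        ¬ |(Pool.Agent.N728.QG.rxy c n : ℝ) - K * (n / Real.log n)| ≤ δ * (n / Real.log n)) ⊆
      ((S.filter fun n : ℕ => δ1 * T < |∑ t ∈ Icc 1 T, EE z (fn c n t)|) ∪
        (S.filter fun n : ℕ => δ1 * T < |∑ t ∈ Icc 1 T1, EE z (fn c n t)|)) ∪
        (S.filter fun n : ℕ => δ / 8 * (R / Real.log R) < mid c T n) := by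
    intro n hn
    rw [mem_filter] at hn
    obtain ⟨hn1, hn2, K, hK, hKK, hKS, hno⟩ := hn
    have hnS : n ∈ S := by
      rw [hS]
      exact mem_filter.2 ⟨hn1, hn2⟩
    by_contra hcon
    rw [mem_union, mem_union, not_or, not_or] at hcon
    obtain ⟨⟨n1, n2⟩, n3⟩ := hcon
    apply hno
    obtain ⟨a1, a2, a3, a4, a5⟩ := hSn n hnS
    have n1' : |∑ t ∈ Icc 1 T, EE z (fn c n t)| ≤ δ1 * T := by
      by_contra hh
      exact n1 (mem_filter.2 ⟨hnS, not_le.1 hh⟩)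
    have n2' : |∑ t ∈ Icc 1 T1, EE z (fn c n t)| ≤ δ1 * T := by
      by_contra hh
      exact n2 (mem_filter.2 ⟨hnS, not_le.1 hh⟩)
    have n3' : mid c T n ≤ δ / 8 * (R / Real.log R) := by
      by_contra hh
      exact n3 (mem_filter.2 ⟨hnS, not_le.1 hh⟩)
    -- numbers
    have hnB := hSB hnS
    rw [mem_filter, mem_Ioc] at hnB
    obtain ⟨⟨b1, b2⟩, b3⟩ := hnB
    have h2T : 2 * T < n := lt_of_le_of_lt h.T2 b1
    have h6T : n ≤ 6 * T := by
      have : (n : ℝ) ≤ 6 * T := a4.trans h.RT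
      exact_mod_cast this
    have hn2R : R ≤ 2 * n := by
      have : (0 : ℝ) ≤ n := Nat.cast_nonneg _
      nlinarith
    have hn0 : (0 : ℝ) < n := by linarith
    have hn1' : (1 : ℝ) ≤ n := by linarith
    have hlogn : Real.log R / 2 ≤ Real.log n := by
      have e : 2 * Real.log (n : ℝ) = Real.log ((n : ℝ) ^ 2) := by
        rw [Real.log_pow]; norm_num
      have h3 : Real.log R ≤ Real.log ((n : ℝ) ^ 2) := by
        apply Real.log_le_log hR0
        nlinarith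
      linarith
    have hlogn' : Real.log n ≤ Real.log R := Real.log_le_log hn0 a4
    have hlogn0 : 0 < Real.log n := by linarith
    have hCz : Cz ≤ δ1 * T := by
      have e1 : 8 * (Cz / δ1) ≤ 8 * T := by linarith
      have e2 : Cz / δ1 ≤ T := by linarith
      rw [div_le_iff₀ hδ10] at e2
      linarith
    have hT1T' : (T1 : ℝ) ≤ T := by exact_mod_cast h.T1T
    have hSum : ∀ τ, τ = T ∨ τ = T1 →
        |∑ t ∈ Icc 1 τ, Pool.Agent.N728.QL.lp (fn c n t) - 2 * K * τ| ≤ 3 * δ1 * T := by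
      intro τ hτ
      have hτT : (τ : ℝ) ≤ T := by
        rcases hτ with rfl | rfl
        · exact le_rfl
        · exact hT1T'
      have e1 : |∑ t ∈ Icc 1 τ, EE z (fn c n t)| ≤ δ1 * T := by
        rcases hτ with rfl | rfl
        · exact n1'
        · exact n2'
      have e2 := hloc n 0 τ (Nat.zero_le _)
      have e3 : (Ioc 0 τ) = Icc 1 τ := by
        ext t
        simp only [mem_Ioc, mem_Icc]
        omega
      rw [e3, Nat.cast_zero, sub_zero] at e2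
      simp only [lz_eq] at e2
      have e4 : ∑ t ∈ Icc 1 τ, Pool.Agent.N728.QL.lp (fn c n t) =
          ∑ t ∈ Icc 1 τ, EE z (fn c n t) + ∑ t ∈ Icc 1 τ, lz z (fn c n t) := by
        rw [← Finset.sum_add_distrib]
        refine Finset.sum_congr rfl fun t _ => ?_
        unfold EE
        ring
      have e5 : |(τ : ℝ) * Sg (-1) n c z - 2 * K * τ| ≤ δ1 * T := by
        have : (τ : ℝ) * Sg (-1) n c z - 2 * K * τ = -(τ * (2 * K - Sg (-1) n c z)) := by ring
        rw [this, abs_neg, abs_mul, abs_of_nonneg (Nat.cast_nonneg τ), mul_comm δ1]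
        exact mul_le_mul hτT hKS (abs_nonneg _) hTR.le
      rw [e4]
      rw [abs_le] at *
      constructor <;> linarith [e1.1, e1.2, e2.1, e2.2, e5.1, e5.2]
    have hone := one_n (c := c) (n := n) (T := T) (J := J) (T1 := T1) (K := K) (K0 := K0) (e := e)
      (E := 3 * δ1 * T) hJ h.T1d (by have := h.T14; omega) h2T.le h6T
      (by linarith) (by
        have e1 : 24 * (J : ℝ) * |(c : ℝ)| ≤ n := by linarith
        nlinarith) (by linarith) hK hKK (by positivity) (hSum T1 (Or.inr rfl))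
      (hSum T (Or.inl rfl)) (by rw [hδ1]; nlinarith) he1 he0 hJK (by
        have e1 : 4 * (2 * K0 + 1) * Real.log (24 * J) / e ≤ Real.log n := by linarith
        rw [div_le_iff₀ he0] at e1
        linarith)
    -- the result
    rw [rxy_eq h2T]
    have f1 : mid c T n ≤ δ / 4 * (n / Real.log n) := by
      refine n3'.trans ?_
      have g1 : R / Real.log R ≤ 2 * (n / Real.log n) := by
        have g2 : R / Real.log R ≤ R / Real.log n := div_le_div_of_nonneg_left hR0.le hlogn0 hlogn'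
        have g3 : R / Real.log n ≤ 2 * n / Real.log n := div_le_div_of_nonneg_right hn2R hlogn0.le
        calc R / Real.log R ≤ 2 * n / Real.log n := g2.trans g3
          _ = 2 * (n / Real.log n) := by ring
      calc δ / 8 * (R / Real.log R) ≤ δ / 8 * (2 * (n / Real.log n)) :=
            mul_le_mul_of_nonneg_left g1 (by positivity)
        _ = δ / 4 * (n / Real.log n) := by ring
    have f2 : (n : ℝ) - 2 * T ≤ 6 * d * n := by
      have g1 := h.YTup
      have g2 := h.Yr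
      have g3 : (n : ℝ) ≤ (⌊R⌋₊ : ℝ) := by exact_mod_cast a2
      have g4 : 3 * d * R ≤ 6 * d * n := by nlinarith
      linarith
    have f2' : 0 ≤ (n : ℝ) - 2 * T := by
      have : 2 * (T : ℝ) < n := by exact_mod_cast h2T
      linarith
    have f3 : |2 * (K * (T / Real.log n)) - K * (n / Real.log n)| ≤ δ / 4 * (n / Real.log n) := by
      have g1 : 2 * (K * (T / Real.log n)) - K * (n / Real.log n) =
          -(K * (((n : ℝ) - 2 * T) / Real.log n)) := by ring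
      rw [g1, abs_neg, abs_of_nonneg (by positivity)]
      calc K * (((n : ℝ) - 2 * T) / Real.log n) ≤ K0 * ((6 * d * n) / Real.log n) :=
            mul_le_mul hKK (div_le_div_of_nonneg_right f2 hlogn0.le) (by positivity) hK0.le
        _ = (24 * K0 * d) / 4 * (n / Real.log n) := by ring
        _ ≤ δ / 4 * (n / Real.log n) := by
            apply mul_le_mul_of_nonneg_right _ (by positivity)
            linarith
    have f4 : e * (T / Real.log n) ≤ δ / 8 * (n / Real.log n) := by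
      have g1 : (T : ℝ) ≤ n / 2 := by linarith
      calc e * (T / Real.log n) ≤ (δ / 4) * ((n / 2) / Real.log n) :=
            mul_le_mul heδ (div_le_div_of_nonneg_right g1 hlogn0.le) (by positivity) (by positivity)
        _ = δ / 8 * (n / Real.log n) := by ring
    have f5 : 0 ≤ mid c T n := mid_nonneg _ _ _
    have f6 : 0 ≤ δ * (n / Real.log n) := by positivity
    have f7 : ∑ t ∈ Ico (T + 1) (n - T), pr c n t = mid c T n := rfl
    rw [f7]
    rw [abs_le] at hone f3 ⊢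
    constructor <;> nlinarith [hone.1, hone.2, f3.1, f3.2]
  have hcard := Finset.card_le_card hsub
  have d5 := Finset.card_union_le ((S.filter fun n : ℕ => δ1 * T < |∑ t ∈ Icc 1 T, EE z (fn c n t)|) ∪
        (S.filter fun n : ℕ => δ1 * T < |∑ t ∈ Icc 1 T1, EE z (fn c n t)|))
        (S.filter fun n : ℕ => δ / 8 * (R / Real.log R) < mid c T n)
  have d6 := Finset.card_union_le (S.filter fun n : ℕ => δ1 * T < |∑ t ∈ Icc 1 T, EE z (fn c n t)|)
        (S.filter fun n : ℕ => δ1 * T < |∑ t ∈ Icc 1 T1, EE z (fn c n t)|)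
  have m1 := hMT T (by nlinarith) le_rfl
  have m2 := hMT T1 h.TJ h.T1T
  have tot := hcard.trans (d5.trans (Nat.add_le_add_right d6 _))
  have tot' : (((Icc 1 ⌊R⌋₊).filter (fun n : ℕ => R / (1 + d) < n ∧
      ∃ K : ℝ, 0 ≤ K ∧ K ≤ K0 ∧ |2 * K - Sg (-1) n c z| ≤ δ1 ∧
        ¬ |(Pool.Agent.N728.QG.rxy c n : ℝ) - K * (n / Real.log n)| ≤
          δ * (n / Real.log n))).card : ℝ) ≤
      ((S.filter fun n : ℕ => δ1 * T < |∑ t ∈ Icc 1 T, EE z (fn c n t)|).card : ℝ) +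
      ((S.filter fun n : ℕ => δ1 * T < |∑ t ∈ Icc 1 T1, EE z (fn c n t)|).card : ℝ) +
      ((S.filter fun n : ℕ => δ / 8 * (R / Real.log R) < mid c T n).card : ℝ) := by
    exact_mod_cast tot
  linarith

end

end Pool.Agent.N82.QH
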